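import Pool.Agent.H674R3.HenE
import Pool.Agent.H674R3.HenTBad
import Pool.Agent.H674R3.HenTTriv
import Pool.Agent.H674R3.HenTGood
import Pool.Agent.H674R3.HenTSum

/-!
For every degree `d ≥ 2`, almost all Hénon maps with integer coefficients (ordered by height) have
no rational periodic point at all, with a power saving.
-/

set_option autoImplicit false

namespace Pool.Agent.Results.MP_0e6b5f_nt.AlmostAllIntegerMaps

/-- The generalized Hénon map `(x, y) ↦ (y, F(y) - δ x)` with `F(y) = a_0 + a_1 y + ... + a_d y^d`. -/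
def henon {d : ℕ} (a : Fin (d + 1) → ℚ) (δ : ℚ) (P : ℚ × ℚ) : ℚ × ℚ :=
  (P.2, (∑ i : Fin (d + 1), a i * P.2 ^ (i : ℕ)) - δ * P.1)

/-- The generalized Hénon maps of degree `d` with integer coefficients of absolute value at most
`H`, given by `(a, δ)` with `a_d ≠ 0` and `δ ≠ 0`. -/
def maps (d H : ℕ) : Set ((Fin (d + 1) → ℤ) × ℤ) :=
  {q | (∀ i, |q.1 i| ≤ (H : ℤ)) ∧ |q.2| ≤ (H : ℤ) ∧ q.1 (Fin.last d) ≠ 0 ∧ q.2 ≠ 0}

/-- Those of them that have a periodic point with rational coordinates. -/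
def mapsWithPeriodicPoint (d H : ℕ) : Set ((Fin (d + 1) → ℤ) × ℤ) :=
  {q | q ∈ maps d H ∧ ∃ P : ℚ × ℚ, ∃ n : ℕ, 1 ≤ n ∧
    (henon (fun i => (q.1 i : ℚ)) (q.2 : ℚ))^[n] P = P}

/-- For every `d ≥ 2` there is `C` such that at most `C H^(d + 2 - 1/10)` of the (more than
`H^(d+2)`) generalized Hénon maps of degree `d` with integer coefficients of absolute value at most
`H` have a rational periodic point; so the proportion of these maps tends to zero. -/
theorem result (d : ℕ) (hd : 2 ≤ d) :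
    (∃ C : ℝ, ∀ H : ℕ, 1 ≤ H →
      ((mapsWithPeriodicPoint d H).ncard : ℝ) ≤ C * (H : ℝ) ^ ((d : ℝ) + 2 - 1 / 10)) ∧
    Filter.Tendsto (fun H : ℕ => ((mapsWithPeriodicPoint d H).ncard : ℝ) / (maps d H).ncard)
      Filter.atTop (nhds 0) := by
  have hs : Pool.Agent.H674R3.SumBound :=
    Pool.Agent.H674R3.Hen.taskSum Pool.Agent.H674R3.Hen.taskBad Pool.Agent.H674R3.Hen.taskTriv
      Pool.Agent.H674R3.Hen.taskGood
  have h1 : ∀ H, mapsWithPeriodicPoint d H = Pool.Agent.H674R3.HP d H := by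
    intro H
    ext q
    constructor
    · rintro ⟨⟨g1, g2, g3, g4⟩, g5⟩
      exact ⟨g1, g2, g3, g4, g5⟩
    · rintro ⟨g1, g2, g3, g4, g5⟩
      exact ⟨⟨g1, g2, g3, g4⟩, g5⟩
  have h2 : ∀ H, maps d H = Pool.Agent.H674R3.AllP d H := fun H => rfl
  simp only [h1, h2]
  obtain ⟨C, -, hC⟩ := Pool.Agent.H674R3.hen_all hs hd
  exact ⟨⟨C, hC⟩, Pool.Agent.H674R3.hen_density hs hd⟩

end Pool.Agent.Results.MP_0e6b5f_nt.AlmostAllIntegerMaps
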