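import Pool.Agent.H674R3.HenJ
import Pool.Agent.H674R3.HenRVand
import Pool.Agent.H674R3.HenRGoodR
import Pool.Agent.H674R3.HenRShort
import Pool.Agent.H674R3.HenRTrivR
import Pool.Agent.H674R3.HenRBadR
import Pool.Agent.H674R3.HenRFixB
import Pool.Agent.H674R3.HenRFixDU
import Pool.Agent.H674R3.HenRGcd
import Pool.Agent.H674R3.HenRAsmR

/-!
For every degree `d ≥ 2`, almost all Hénon maps with rational coefficients (ordered by height) have
no rational periodic point at all, with a power saving.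
-/

set_option autoImplicit false

namespace Pool.Agent.Results.MP_0e6b5f_nt.AlmostAllRationalMaps

/-- The generalized Hénon map `(x, y) ↦ (y, F(y) - δ x)` with `F(y) = a_0 + a_1 y + ... + a_d y^d`. -/
def henon {d : ℕ} (a : Fin (d + 1) → ℚ) (δ : ℚ) (P : ℚ × ℚ) : ℚ × ℚ :=
  (P.2, (∑ i : Fin (d + 1), a i * P.2 ^ (i : ℕ)) - δ * P.1)

/-- The generalized Hénon maps of degree `d` over `ℚ` and height at most `H`, given by `(a, δ)` with
`a_d ≠ 0` and `δ ≠ 0`: the numbers `a_0, ..., a_d, δ` have a common denominator `b` such that `b`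
and all the numerators `b a_i`, `b δ` are integers of absolute value at most `H`. -/
def maps (d H : ℕ) : Set ((Fin (d + 1) → ℚ) × ℚ) :=
  {q | q.1 (Fin.last d) ≠ 0 ∧ q.2 ≠ 0 ∧ ∃ b : ℤ, b ≠ 0 ∧ |b| ≤ (H : ℤ) ∧
    (∃ m : ℤ, |m| ≤ (H : ℤ) ∧ (b : ℚ) * q.2 = m) ∧
    ∀ i, ∃ m : ℤ, |m| ≤ (H : ℤ) ∧ (b : ℚ) * q.1 i = m}

/-- Those of them that have a periodic point with rational coordinates. -/
def mapsWithPeriodicPoint (d H : ℕ) : Set ((Fin (d + 1) → ℚ) × ℚ) :=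
  {q | q ∈ maps d H ∧ ∃ P : ℚ × ℚ, ∃ n : ℕ, 1 ≤ n ∧ (henon q.1 q.2)^[n] P = P}

/-- For every `d ≥ 2` there is `C` such that at most `C H^(d + 3 - 1/20)` of the (at least
`H^(d+3)/4`) generalized Hénon maps of degree `d` over `ℚ` of height at most `H` have a rational
periodic point; so the proportion of these maps tends to zero. -/
theorem result (d : ℕ) (hd : 2 ≤ d) :
    (∃ C : ℝ, ∀ H : ℕ, 1 ≤ H →
      ((mapsWithPeriodicPoint d H).ncard : ℝ) ≤ C * (H : ℝ) ^ ((d : ℝ) + 3 - 1 / 20) ∧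
      (H : ℝ) ^ (d + 3) / 4 ≤ ((maps d H).ncard : ℝ)) ∧
    Filter.Tendsto (fun H : ℕ => ((mapsWithPeriodicPoint d H).ncard : ℝ) / (maps d H).ncard)
      Filter.atTop (nhds 0) := by
  have h1 : ∀ H, mapsWithPeriodicPoint d H = Pool.Agent.H674R3.RMP d H := fun H => rfl
  have h2 : ∀ H, maps d H = Pool.Agent.H674R3.RM d H := fun H => rfl
  simp only [h1, h2]
  have hs : Pool.Agent.H674R3.SumBoundR :=
    Pool.Agent.H674R3.HenR.taskAsmR Pool.Agent.H674R3.HenR.taskVand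
      Pool.Agent.H674R3.HenR.taskGoodR Pool.Agent.H674R3.HenR.taskShort
      Pool.Agent.H674R3.HenR.taskTrivR Pool.Agent.H674R3.HenRBadR.taskBadR
      Pool.Agent.H674R3.HenR.taskFixB Pool.Agent.H674R3.HenR.taskFixDU
      Pool.Agent.H674R3.HenR.taskGcd
  obtain ⟨C, -, hC⟩ := Pool.Agent.H674R3.rm_bound2 hs hd
  exact ⟨⟨C, fun H hH => ⟨hC H hH, Pool.Agent.H674R3.rm_ge d H⟩⟩,
    Pool.Agent.H674R3.rm_density2 hs hd⟩

end Pool.Agent.Results.MP_0e6b5f_nt.AlmostAllRationalMaps
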